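import Pool.Agent.R151.SHD

/-!
# SHD does not pass from the Stone–Čech compactification to the space
-/

open Pool.Agent.R151.SHD

namespace Pool.Agent.Results.MP_8ff099_gt.NotFromStoneCech

/-- There is a non-compact Tychonoff space `X` whose Stone–Čech compactification is SHD while `X`
is not SHD. -/
theorem result : ∃ (X : Type) (_ : TopologicalSpace X),
    T35Space X ∧ ¬ CompactSpace X ∧ SHD (StoneCech X) ∧ ¬ SHD X :=
  ⟨D, inferInstance, inferInstance, not_compact_D, SHD_stoneCech, not_SHD_D⟩

end Pool.Agent.Results.MP_8ff099_gt.NotFromStoneCech
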